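import Pool.Agent.Helper93.L2.Defs
import Pool.Agent.Helper66.L2.StokesAux

/-! # LN2-R2a: the cut-off functions for Stokes -/

namespace Pool.Agent.Helper39.L2

open MeasureTheory Filter Metric
open scoped Topology
open Pool.Agent.Helper93.L2 Pool.Agent.Helper66.L2

/-- the bump function: 1 on the ball of radius 1/2, 0 outside the unit ball -/
noncomputable def be : ContDiffBump (0 : ℂ) := ⟨1 / 2, 1, by norm_num, by norm_num⟩

/-- scaled bump -/
noncomputable def gg (s : ℝ) (c z : ℂ) : ℝ := be (s • (z - c))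

theorem be_contDiff : ContDiff ℝ 1 (fun z => be z) := be.contDiff

theorem gg_contDiff (s : ℝ) (c : ℂ) : ContDiff ℝ 1 (gg s c) := by
  unfold gg
  have h : ContDiff ℝ 1 fun z : ℂ => s • (z - c) := by fun_prop
  exact be_contDiff.comp h

theorem gg_nonneg (s : ℝ) (c z : ℂ) : 0 ≤ gg s c z := be.nonneg

theorem gg_le_one (s : ℝ) (c z : ℂ) : gg s c z ≤ 1 := be.le_one

theorem gg_one {s : ℝ} {c z : ℂ} (hs : 0 ≤ s) (h : s * ‖z - c‖ ≤ 1 / 2) : gg s c z = 1 := by
  refine be.one_of_mem_closedBall ?_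
  rw [mem_closedBall, dist_zero_right, norm_smul, Real.norm_of_nonneg hs]
  exact h

theorem gg_zero {s : ℝ} {c z : ℂ} (hs : 0 ≤ s) (h : 1 ≤ s * ‖z - c‖) : gg s c z = 0 := by
  refine be.zero_of_le_dist ?_
  rw [dist_zero_right, norm_smul, Real.norm_of_nonneg hs]
  exact h

theorem exists_bound : ∃ K : ℝ, 0 ≤ K ∧ ∀ w : ℂ, ‖fderiv ℝ (fun z => be z) w‖ ≤ K := by
  have hc : HasCompactSupport (fderiv ℝ (fun z : ℂ => be z)) := be.hasCompactSupport.fderiv (𝕜 := ℝ)
  have hcont : Continuous (fderiv ℝ (fun z : ℂ => be z)) := be_contDiff.continuous_fderiv (by norm_num)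
  obtain ⟨K, hK⟩ := hc.exists_bound_of_continuous hcont
  exact ⟨K, (norm_nonneg _).trans (hK 0), hK⟩

theorem fderiv_gg_le {K : ℝ} (hK : ∀ w : ℂ, ‖fderiv ℝ (fun z => be z) w‖ ≤ K) {s : ℝ} (hs : 0 < s)
    (c z : ℂ) : ‖fderiv ℝ (gg s c) z‖ ≤ s * K := by
  have h1 : HasFDerivAt (fun z : ℂ => s • (z - c)) (s • ContinuousLinearMap.id ℝ ℂ) z :=
    ((hasFDerivAt_id z).sub_const c).const_smul s
  have h2 : HasFDerivAt (fun z : ℂ => be z) (fderiv ℝ (fun z => be z) (s • (z - c))) (s • (z - c)) :=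
    ((be_contDiff.differentiable (by norm_num)) _).hasFDerivAt
  have h3 := (h2.comp z h1).fderiv
  have h4 : fderiv ℝ (gg s c) z =
      (fderiv ℝ (fun z => be z) (s • (z - c))).comp (s • ContinuousLinearMap.id ℝ ℂ) := h3
  rw [h4]
  refine (ContinuousLinearMap.opNorm_comp_le _ _).trans ?_
  have h5 : ‖s • ContinuousLinearMap.id ℝ ℂ‖ ≤ s := by
    rw [norm_smul, Real.norm_of_nonneg hs.le]
    exact mul_le_of_le_one_right hs.le ContinuousLinearMap.norm_id_le
  calc _ ≤ K * s := mul_le_mul (hK _) h5 (norm_nonneg _) ((norm_nonneg _).trans (hK 0))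
    _ = s * K := mul_comm _ _

theorem fderiv_gg_small {s : ℝ} (hs : 0 < s) {c z : ℂ} (h : s * ‖z - c‖ < 1 / 2) :
    fderiv ℝ (gg s c) z = 0 := by
  have : gg s c =ᶠ[𝓝 z] fun _ => 1 := by
    have hc : Continuous fun z : ℂ => s * ‖z - c‖ := by fun_prop
    filter_upwards [hc.continuousAt.eventually_lt continuousAt_const h] with w hw
    exact gg_one hs.le hw.le
  rw [this.fderiv_eq]; simp

theorem fderiv_gg_large {s : ℝ} (hs : 0 < s) {c z : ℂ} (h : 1 < s * ‖z - c‖) :
    fderiv ℝ (gg s c) z = 0 := by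
  have : gg s c =ᶠ[𝓝 z] fun _ => 0 := by
    have hc : Continuous fun z : ℂ => s * ‖z - c‖ := by fun_prop
    filter_upwards [continuousAt_const.eventually_lt hc.continuousAt h] with w hw
    exact gg_zero hs.le hw.le
  rw [this.fderiv_eq]; simp

/-- product rule bound -/
theorem fderiv_prod_le {ι : Type*} (s : Finset ι) (f : ι → ℂ → ℝ) (z : ℂ)
    (hf : ∀ i ∈ s, DifferentiableAt ℝ (f i) z) (h1 : ∀ i ∈ s, |f i z| ≤ 1) :
    DifferentiableAt ℝ (fun w => ∏ i ∈ s, f i w) z ∧ |∏ i ∈ s, f i z| ≤ 1 ∧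
      ‖fderiv ℝ (fun w => ∏ i ∈ s, f i w) z‖ ≤ ∑ i ∈ s, ‖fderiv ℝ (f i) z‖ := by
  classical
  induction s using Finset.induction_on with
  | empty => simp
  | insert a s ha ih =>
    obtain ⟨i1, i2, i3⟩ := ih (fun i hi => hf i (Finset.mem_insert_of_mem hi))
      (fun i hi => h1 i (Finset.mem_insert_of_mem hi))
    have ha1 := hf a (Finset.mem_insert_self a s)
    have ha2 := h1 a (Finset.mem_insert_self a s)
    have e : (fun w => ∏ i ∈ insert a s, f i w) = (f a) * fun w => ∏ i ∈ s, f i w := by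
      funext w
      rw [Finset.prod_insert ha]; rfl
    refine ⟨?_, ?_, ?_⟩
    · rw [e]; exact ha1.mul i1
    · rw [Finset.prod_insert ha, abs_mul]
      exact mul_le_one₀ ha2 (abs_nonneg _) i2
    · rw [e, fderiv_mul ha1 i1, Finset.sum_insert ha]
      refine (norm_add_le _ _).trans ?_
      rw [norm_smul, norm_smul, Real.norm_eq_abs, Real.norm_eq_abs, add_comm]
      refine add_le_add ?_ ?_
      · exact mul_le_of_le_one_left (norm_nonneg _) i2
      · exact (mul_le_of_le_one_left (norm_nonneg _) ha2).trans i3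

/-- families whose integrals tend to zero -/
def Small (u : ℕ → ℂ → ℝ) : Prop :=
  ∃ G : ℕ → ℂ → ℝ, (∀ᶠ n in atTop, Integrable (G n) ∧ ∀ z, u n z ≤ G n z) ∧
    Tendsto (fun n => ∫ z, G n z) atTop (𝓝 0)

theorem Small.mono {u v : ℕ → ℂ → ℝ} (h : Small v) (huv : ∀ᶠ n in atTop, ∀ z, u n z ≤ v n z) :
    Small u := by
  obtain ⟨G, h1, h2⟩ := h
  refine ⟨G, ?_, h2⟩
  filter_upwards [h1, huv] with n a b
  exact ⟨a.1, fun z => (b z).trans (a.2 z)⟩

theorem Small.add {u v : ℕ → ℂ → ℝ} (hu : Small u) (hv : Small v) :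
    Small (fun n z => u n z + v n z) := by
  obtain ⟨G, h1, h2⟩ := hu
  obtain ⟨H, h3, h4⟩ := hv
  refine ⟨fun n z => G n z + H n z, ?_, ?_⟩
  · filter_upwards [h1, h3] with n a b
    exact ⟨a.1.add b.1, fun z => add_le_add (a.2 z) (b.2 z)⟩
  · have : Tendsto (fun n => (∫ z, G n z) + ∫ z, H n z) atTop (𝓝 (0 + 0)) := h2.add h4
    rw [add_zero] at this
    refine this.congr' ?_
    filter_upwards [h1, h3] with n a b
    exact (integral_add a.1 b.1).symm

theorem small_zero : Small (fun _ _ => 0) :=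
  ⟨fun _ _ => 0, Eventually.of_forall fun _ => ⟨integrable_zero _ _ _, fun _ => le_rfl⟩, by simp⟩

theorem small_sum {ι : Type*} (s : Finset ι) (u : ι → ℕ → ℂ → ℝ) (h : ∀ i ∈ s, Small (u i)) :
    Small (fun n z => ∑ i ∈ s, u i n z) := by
  classical
  induction s using Finset.induction_on with
  | empty => simpa using small_zero
  | insert a s ha ih =>
    have := (h a (Finset.mem_insert_self a s)).add (ih fun i hi => h i (Finset.mem_insert_of_mem hi))
    simpa [Finset.sum_insert ha] using this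

theorem Small.tendsto {u : ℕ → ℂ → ℝ} (h : Small u) (h0 : ∀ n z, 0 ≤ u n z) :
    Tendsto (fun n => ∫ z, u n z) atTop (𝓝 0) := by
  obtain ⟨G, h1, h2⟩ := h
  refine squeeze_zero' (Eventually.of_forall fun n => integral_nonneg (h0 n)) ?_ h2
  filter_upwards [h1] with n a
  exact integral_mono_of_nonneg (Eventually.of_forall (h0 n)) a.1 (Eventually.of_forall a.2)

theorem small_ball {u : ℕ → ℂ → ℝ} (c : ℂ) (r ε : ℕ → ℝ)
    (hu : ∀ᶠ n in atTop, 0 < r n ∧ ∀ z, u n z ≤
      (closedBall c (r n)).indicator (fun _ => ε n / r n ^ 2) z)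
    (hε : Tendsto ε atTop (𝓝 0)) : Small u := by
  refine ⟨fun n => (closedBall c (r n)).indicator (fun _ => ε n / r n ^ 2), ?_, ?_⟩
  · filter_upwards [hu] with n a
    refine ⟨?_, a.2⟩
    exact (integrable_indicator_iff measurableSet_closedBall).mpr
      (integrableOn_const (isCompact_closedBall c (r n)).measure_lt_top.ne)
  · have : Tendsto (fun n => ε n * Real.pi) atTop (𝓝 (0 * Real.pi)) := hε.mul_const _
    rw [zero_mul] at this
    refine this.congr' ?_
    filter_upwards [hu] with n a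
    rw [integral_indicator measurableSet_closedBall, setIntegral_const, Measure.real,
      Complex.volume_closedBall]
    have h1 := a.1
    rw [ENNReal.toReal_mul, ENNReal.toReal_pow, ENNReal.toReal_ofReal h1.le]
    simp
    field_simp


/-- piece at a pole -/
theorem om_le {x : ℂ} {t L : ℝ} (ht : 0 < t) (hL : 0 ≤ L) (h1 : t ≤ ‖x‖)
    (h2 : L ≤ |Real.log ‖x‖|) : om x ≤ (t * (1 + L))⁻¹ := by
  unfold om
  refine inv_anti₀ (by positivity) ?_
  exact mul_le_mul h1 (by linarith) (by linarith) (ht.le.trans h1)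

theorem om_le' {x : ℂ} {t : ℝ} (ht : 0 < t) (h1 : t ≤ ‖x‖) : om x ≤ t⁻¹ := by
  have := om_le (L := 0) ht le_rfl h1 (abs_nonneg _)
  simpa using this

theorem log_tendsto : Tendsto (fun n : ℕ => Real.log ((n : ℝ) + 1)) atTop atTop :=
  Real.tendsto_log_atTop.comp (tendsto_atTop_add_const_right _ _ tendsto_natCast_atTop_atTop)

/-- at the pole itself -/
theorem small_pole {K : ℝ} (hK0 : 0 ≤ K) (hK : ∀ w : ℂ, ‖fderiv ℝ (fun z => be z) w‖ ≤ K) (p : ℂ) :
    Small fun n z => om (z - p) * ‖fderiv ℝ (gg ((n : ℝ) + 1) p) z‖ := by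
  refine small_ball p (fun n => 1 / ((n : ℝ) + 1))
    (fun n => 2 * K / (1 + Real.log ((n : ℝ) + 1))) ?_ ?_
  · refine Eventually.of_forall fun n => ⟨by positivity, fun z => ?_⟩
    set m : ℝ := (n : ℝ) + 1 with hm
    have hm1 : 1 ≤ m := by rw [hm]; linarith [(Nat.cast_nonneg n : (0 : ℝ) ≤ n)]
    have hm0 : 0 < m := by linarith
    have hL : 0 ≤ Real.log m := Real.log_nonneg hm1
    by_cases hz : z ∈ closedBall p (1 / m)
    · rw [Set.indicator_of_mem hz]
      rw [mem_closedBall, dist_eq_norm, le_div_iff₀ hm0, mul_comm] at hz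
      by_cases hz2 : m * ‖z - p‖ < 1 / 2
      · rw [fderiv_gg_small hm0 hz2]
        simp only [norm_zero, mul_zero]
        positivity
      · push Not at hz2
        have h3 : (2 * m)⁻¹ ≤ ‖z - p‖ := by
          rw [inv_le_iff_one_le_mul₀ (by positivity)]
          linarith
        have h3' : 0 < ‖z - p‖ := lt_of_lt_of_le (by positivity) h3
        have h4 : Real.log m ≤ |Real.log ‖z - p‖| := by
          have : Real.log ‖z - p‖ ≤ - Real.log m := by
            rw [← Real.log_inv]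
            refine Real.log_le_log h3' ?_
            rw [le_inv_comm₀ h3' hm0, ← one_div, le_div_iff₀ h3']
            exact hz
          rw [abs_of_nonpos (by linarith)]; linarith
        have h5 := om_le (by positivity) hL h3 h4
        have h6 := fderiv_gg_le hK hm0 p z
        calc om (z - p) * ‖fderiv ℝ (gg m p) z‖ ≤ ((2 * m)⁻¹ * (1 + Real.log m))⁻¹ * (m * K) :=
              mul_le_mul h5 h6 (norm_nonneg _) (by positivity)
          _ = 2 * K / (1 + Real.log m) / (1 / m) ^ 2 := by field_simp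
    · rw [Set.indicator_of_notMem hz]
      rw [mem_closedBall, dist_eq_norm, le_div_iff₀ hm0, mul_comm] at hz
      push Not at hz
      rw [fderiv_gg_large hm0 hz]; simp
  · exact (tendsto_atTop_add_const_left _ _ log_tendsto).const_div_atTop _

/-- at another pole -/
theorem small_other {K : ℝ} (hK : ∀ w : ℂ, ‖fderiv ℝ (fun z => be z) w‖ ≤ K) {p q : ℂ}
    (hpq : p ≠ q) :
    Small fun n z => om (z - q) * ‖fderiv ℝ (gg ((n : ℝ) + 1) p) z‖ := by
  have hδ : 0 < ‖p - q‖ := norm_pos_iff.mpr (sub_ne_zero.mpr hpq)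
  refine small_ball p (fun n => 1 / ((n : ℝ) + 1))
    (fun n => (2 * K / ‖p - q‖) / ((n : ℝ) + 1)) ?_ ?_
  · have h1 : Tendsto (fun n : ℕ => (n : ℝ) + 1) atTop atTop :=
      tendsto_atTop_add_const_right _ _ tendsto_natCast_atTop_atTop
    filter_upwards [h1.eventually_ge_atTop (2 / ‖p - q‖)] with n hn
    refine ⟨by positivity, fun z => ?_⟩
    set m : ℝ := (n : ℝ) + 1 with hm
    have hm1 : 1 ≤ m := by rw [hm]; linarith [(Nat.cast_nonneg n : (0 : ℝ) ≤ n)]
    have hm0 : 0 < m := by linarith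
    by_cases hz : z ∈ closedBall p (1 / m)
    · rw [Set.indicator_of_mem hz]
      rw [mem_closedBall, dist_eq_norm] at hz
      have h3 : ‖p - q‖ / 2 ≤ ‖z - q‖ := by
        have h4 : 1 / m ≤ ‖p - q‖ / 2 := by
          rw [div_le_iff₀ hδ] at hn
          rw [div_le_iff₀ hm0]; linarith
        have h5 : ‖p - q‖ ≤ ‖z - q‖ + ‖z - p‖ := by
          have := norm_sub_le (z - q) (z - p)
          simpa using this
        linarith
      have h5 := om_le' (by positivity) h3
      have h6 := fderiv_gg_le hK hm0 p z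
      calc om (z - q) * ‖fderiv ℝ (gg m p) z‖ ≤ (‖p - q‖ / 2)⁻¹ * (m * K) :=
            mul_le_mul h5 h6 (norm_nonneg _) (by positivity)
        _ = 2 * K / ‖p - q‖ / m / (1 / m) ^ 2 := by field_simp
    · rw [Set.indicator_of_notMem hz]
      rw [mem_closedBall, dist_eq_norm, le_div_iff₀ hm0, mul_comm] at hz
      push Not at hz
      rw [fderiv_gg_large hm0 hz]; simp
  · exact (tendsto_atTop_add_const_right _ _ tendsto_natCast_atTop_atTop).const_div_atTop _

/-- near infinity -/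
theorem small_inf {K : ℝ} (hK0 : 0 ≤ K) (hK : ∀ w : ℂ, ‖fderiv ℝ (fun z => be z) w‖ ≤ K) (q : ℂ) :
    Small fun n z => om (z - q) * ‖fderiv ℝ (gg (((n : ℝ) + 1)⁻¹) 0) z‖ := by
  refine small_ball 0 (fun n => (n : ℝ) + 1)
    (fun n => 4 * K / (1 + Real.log (((n : ℝ) + 1) / 4))) ?_ ?_
  · have h1 : Tendsto (fun n : ℕ => (n : ℝ) + 1) atTop atTop :=
      tendsto_atTop_add_const_right _ _ tendsto_natCast_atTop_atTop
    filter_upwards [h1.eventually_ge_atTop (4 * ‖q‖), h1.eventually_ge_atTop 4] with n hn hn4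
    refine ⟨by positivity, fun z => ?_⟩
    set m : ℝ := (n : ℝ) + 1 with hm
    have hm0 : 0 < m := by linarith
    have hmi : 0 < m⁻¹ := by positivity
    have hL : 0 ≤ Real.log (m / 4) := Real.log_nonneg (by linarith)
    by_cases hz : z ∈ closedBall (0 : ℂ) m
    · rw [Set.indicator_of_mem hz]
      by_cases hz2 : m⁻¹ * ‖z - 0‖ < 1 / 2
      · rw [fderiv_gg_small hmi hz2]
        simp only [norm_zero, mul_zero]
        positivity
      · push Not at hz2
        have h2 : m / 2 ≤ ‖z‖ := by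
          rw [sub_zero, inv_mul_eq_div, le_div_iff₀ hm0] at hz2
          linarith
        have h3 : m / 4 ≤ ‖z - q‖ := by
          have := norm_sub_norm_le z q
          linarith
        have h4 : Real.log (m / 4) ≤ |Real.log ‖z - q‖| :=
          (Real.log_le_log (by positivity) h3).trans (le_abs_self _)
        have h5 := om_le (by positivity) hL h3 h4
        have h6 := fderiv_gg_le hK hmi 0 z
        calc om (z - q) * ‖fderiv ℝ (gg (m⁻¹) 0) z‖ ≤
              (m / 4 * (1 + Real.log (m / 4)))⁻¹ * (m⁻¹ * K) :=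
              mul_le_mul h5 h6 (norm_nonneg _) (by positivity)
          _ = 4 * K / (1 + Real.log (m / 4)) / m ^ 2 := by field_simp
    · rw [Set.indicator_of_notMem hz]
      rw [mem_closedBall, dist_eq_norm] at hz
      push Not at hz
      have : 1 < m⁻¹ * ‖z - 0‖ := by
        rw [inv_mul_eq_div, lt_div_iff₀ hm0]; linarith
      rw [fderiv_gg_large hmi this]; simp
  · have h1 : Tendsto (fun n : ℕ => ((n : ℝ) + 1) / 4) atTop atTop :=
      (tendsto_atTop_add_const_right _ _ tendsto_natCast_atTop_atTop).atTop_div_const (by norm_num)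
    exact (tendsto_atTop_add_const_left _ _
      (Real.tendsto_log_atTop.comp h1)).const_div_atTop _

/-- the factors -/
noncomputable def fac (n : ℕ) : Option ℂ → ℂ → ℝ
  | none => gg (((n : ℝ) + 1)⁻¹) 0
  | some p => fun z => 1 - gg ((n : ℝ) + 1) p z

theorem fac_mem (n : ℕ) (o : Option ℂ) (z : ℂ) : 0 ≤ fac n o z ∧ fac n o z ≤ 1 := by
  cases o with
  | none => exact ⟨gg_nonneg _ _ _, gg_le_one _ _ _⟩
  | some p =>
    have h1 := gg_nonneg ((n : ℝ) + 1) p z
    have h2 := gg_le_one ((n : ℝ) + 1) p z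
    exact ⟨by simp only [fac]; linarith, by simp only [fac]; linarith⟩

theorem fac_contDiff (n : ℕ) (o : Option ℂ) : ContDiff ℝ 1 (fac n o) := by
  cases o with
  | none => exact gg_contDiff _ _
  | some p => exact contDiff_const.sub (gg_contDiff _ _)

theorem om_continuousAt {x : ℂ} (hx : x ≠ 0) : ContinuousAt om x := by
  have h0 : ‖x‖ ≠ 0 := norm_ne_zero_iff.mpr hx
  unfold om
  refine ContinuousAt.inv₀ ?_ ?_
  · exact continuous_norm.continuousAt.mul (continuousAt_const.add
      ((continuous_norm.continuousAt.log h0).abs))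
  · have : 0 < ‖x‖ := norm_pos_iff.mpr hx
    positivity

theorem exists_cut (P : Finset ℂ) : ∃ η : ℕ → ℂ → ℝ, (∀ n, ContDiff ℝ 1 (η n)) ∧
    (∀ n, HasCompactSupport (η n)) ∧ (∀ n z, 0 ≤ η n z ∧ η n z ≤ 1) ∧
    (∀ n, ∀ p ∈ P, ∀ᶠ z in nhds p, η n z = 0) ∧
    (∀ z ∉ P, Filter.Tendsto (fun n => η n z) Filter.atTop (nhds 1)) ∧
    Filter.Tendsto (fun n => ∫ z, wt P z * ‖fderiv ℝ (η n) z‖) Filter.atTop (nhds 0) ∧
    ∀ n, Integrable fun z => wt P z * ‖fderiv ℝ (η n) z‖ := by
  classical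
  obtain ⟨K, hK0, hK⟩ := exists_bound
  set T : Finset (Option ℂ) := insert none (P.image some) with hT
  set η : ℕ → ℂ → ℝ := fun n z => ∏ o ∈ T, fac n o z with hη
  have hnone : (none : Option ℂ) ∈ T := Finset.mem_insert_self _ _
  have hsome : ∀ p ∈ P, (some p : Option ℂ) ∈ T := fun p hp =>
    Finset.mem_insert_of_mem (Finset.mem_image_of_mem _ hp)
  have h1 : ∀ n, ContDiff ℝ 1 (η n) := fun n => contDiff_prod fun o _ => fac_contDiff n o
  have h2 : ∀ n, HasCompactSupport (η n) := by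
    intro n
    refine HasCompactSupport.intro (isCompact_closedBall (0 : ℂ) ((n : ℝ) + 1)) fun z hz => ?_
    refine Finset.prod_eq_zero hnone ?_
    refine gg_zero (by positivity) ?_
    rw [mem_closedBall, dist_eq_norm] at hz
    push Not at hz
    rw [inv_mul_eq_div, le_div_iff₀ (by positivity)]; linarith
  have h3 : ∀ n z, 0 ≤ η n z ∧ η n z ≤ 1 := fun n z =>
    ⟨Finset.prod_nonneg fun o _ => (fac_mem n o z).1,
      Finset.prod_le_one (fun o _ => (fac_mem n o z).1) fun o _ => (fac_mem n o z).2⟩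
  have h4 : ∀ n, ∀ p ∈ P, ∀ᶠ z in nhds p, η n z = 0 := by
    intro n p hp
    have hm : (0 : ℝ) < (n : ℝ) + 1 := by positivity
    have hc : Continuous fun z : ℂ => ((n : ℝ) + 1) * ‖z - p‖ := by fun_prop
    have h0 : ((n : ℝ) + 1) * ‖p - p‖ < 1 / 2 := by simp
    filter_upwards [hc.continuousAt.eventually_lt continuousAt_const h0] with w hw
    refine Finset.prod_eq_zero (hsome p hp) ?_
    simp only [fac]
    rw [gg_one hm.le hw.le, sub_self]
  have hm : Tendsto (fun n : ℕ => (n : ℝ) + 1) atTop atTop :=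
    tendsto_atTop_add_const_right _ _ tendsto_natCast_atTop_atTop
  have h5 : ∀ z ∉ P, Filter.Tendsto (fun n => η n z) Filter.atTop (nhds 1) := by
    intro z hz
    have hall : ∀ᶠ n : ℕ in atTop, ∀ o ∈ T, fac n o z = 1 := by
      rw [Finset.eventually_all]
      intro o ho
      rw [hT, Finset.mem_insert, Finset.mem_image] at ho
      rcases ho with rfl | ⟨p, hp, rfl⟩
      · filter_upwards [hm.eventually_ge_atTop (2 * ‖z‖)] with n hn
        refine gg_one (by positivity) ?_
        rw [sub_zero, inv_mul_eq_div, div_le_iff₀ (by positivity)]; linarith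
      · have hne : 0 < ‖z - p‖ := norm_pos_iff.mpr (sub_ne_zero.mpr fun h => hz (h ▸ hp))
        filter_upwards [hm.eventually_ge_atTop (1 / ‖z - p‖)] with n hn
        simp only [fac]
        rw [gg_zero (by positivity) ((div_le_iff₀ hne).mp hn), sub_zero]
    refine (tendsto_const_nhds (x := (1 : ℝ))).congr' ?_
    filter_upwards [hall] with n hn
    exact (Finset.prod_eq_one hn).symm
  refine ⟨η, h1, h2, h3, h4, h5, ?_, ?_⟩
  · have hb : ∀ n z, wt P z * ‖fderiv ℝ (η n) z‖ ≤
        ∑ q ∈ P, (om (z - q) * ‖fderiv ℝ (gg (((n : ℝ) + 1)⁻¹) 0) z‖ +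
          ∑ p ∈ P, om (z - q) * ‖fderiv ℝ (gg ((n : ℝ) + 1) p) z‖) := by
      intro n z
      have hp := (fderiv_prod_le T (fac n) z
        (fun o _ => ((fac_contDiff n o).differentiable (by norm_num)) z)
        (fun o _ => abs_le.mpr ⟨by linarith [(fac_mem n o z).1], (fac_mem n o z).2⟩)).2.2
      have hn : (none : Option ℂ) ∉ P.image some := by simp
      rw [hT, Finset.sum_insert hn, Finset.sum_image (fun a _ b _ h => Option.some.inj h)] at hp
      have hs : ∀ p, ‖fderiv ℝ (fac n (some p)) z‖ = ‖fderiv ℝ (gg ((n : ℝ) + 1) p) z‖ := by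
        intro p
        have : fac n (some p) = fun z => 1 - gg ((n : ℝ) + 1) p z := rfl
        rw [this, fderiv_const_sub, norm_neg]
      simp_rw [hs] at hp
      have h0 : wt P z * ‖fderiv ℝ (η n) z‖ ≤ wt P z *
          (‖fderiv ℝ (fac n none) z‖ + ∑ p ∈ P, ‖fderiv ℝ (gg ((n : ℝ) + 1) p) z‖) :=
        mul_le_mul_of_nonneg_left hp (wt_nonneg P z)
      refine h0.trans (le_of_eq ?_)
      unfold wt
      rw [Finset.sum_mul]
      refine Finset.sum_congr rfl fun q _ => ?_
      rw [mul_add, Finset.mul_sum]; rfl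
    have hs : Small fun n z => ∑ q ∈ P, (om (z - q) * ‖fderiv ℝ (gg (((n : ℝ) + 1)⁻¹) 0) z‖ +
          ∑ p ∈ P, om (z - q) * ‖fderiv ℝ (gg ((n : ℝ) + 1) p) z‖) := by
      refine small_sum P (fun q n z => om (z - q) * ‖fderiv ℝ (gg (((n : ℝ) + 1)⁻¹) 0) z‖ +
          ∑ p ∈ P, om (z - q) * ‖fderiv ℝ (gg ((n : ℝ) + 1) p) z‖) fun q _ => ?_
      refine (small_inf hK0 hK q).add ?_
      refine small_sum P (fun p n z => om (z - q) * ‖fderiv ℝ (gg ((n : ℝ) + 1) p) z‖) fun p _ => ?_
      by_cases hpq : p = q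
      · subst hpq; exact small_pole hK0 hK p
      · exact small_other hK hpq
    exact (hs.mono (Eventually.of_forall hb)).tendsto fun n z =>
      mul_nonneg (wt_nonneg P z) (norm_nonneg _)
  · intro n
    have hcs : HasCompactSupport (fderiv ℝ (η n)) := (h2 n).fderiv (𝕜 := ℝ)
    have hcd : Continuous (fderiv ℝ (η n)) := (h1 n).continuous_fderiv (by norm_num)
    have hcs' : HasCompactSupport (fun z => wt P z * ‖fderiv ℝ (η n) z‖) := hcs.norm.mul_left
    refine Continuous.integrable_of_hasCompactSupport ?_ hcs'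
    rw [continuous_iff_continuousAt]
    intro z
    by_cases hz : z ∈ P
    · have : (fun z => wt P z * ‖fderiv ℝ (η n) z‖) =ᶠ[nhds z] fun _ => 0 := by
        have h6 : η n =ᶠ[nhds z] fun _ => 0 := h4 n z hz
        filter_upwards [h6.eventuallyEq_nhds] with w hw
        rw [hw.fderiv_eq]; simp
      exact continuousAt_const.congr this.symm
    · refine ContinuousAt.mul ?_ hcd.norm.continuousAt
      unfold wt
      refine tendsto_finsetSum _ fun p hp => ?_
      have hne : z - p ≠ 0 := sub_ne_zero.mpr fun h => hz (h ▸ hp)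
      exact (om_continuousAt hne).comp (f := fun z : ℂ => z - p) (by fun_prop)

end Pool.Agent.Helper39.L2
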